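import Pool.Agent.L7h3.GX.Stm

/-!
# GX-NS: translation between elements and sets of primes
(after `Pool/Agent/Y550/XK/NS.lean`)
-/

set_option autoImplicit false
set_option linter.all false

open scoped Classical

namespace Pool.Agent.L7h77.GX

open Finset
open H385 (ZI nrm)
open Pool.Agent.L7h3.GX
open Pool.Agent.Y699 (nrm_prod nrm_one QB mem_QB PD mem_PD PS PS_prod fin_pd norm_le_of_dvd PP
  nrm_cast)

theorem cls_iff {D : ZI} (hD : PS D) : ClsG D ↔ Cl (PD D) := by
  have h1 : ∏ π ∈ PD D, nrm π = nrm D := by rw [← nrm_prod, hD.prod]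
  unfold ClsG Cl
  rw [h1]
  constructor
  · rintro ⟨-, h⟩
    exact ⟨fun π hπ => ((mem_PD hD.ne).1 hπ).1, h⟩
  · rintro ⟨-, h⟩
    exact ⟨hD, h⟩

theorem card_eq (X : ℕ) (Q : Finset ZI → Prop) :
    {D : ZI | nrm D ≤ X ∧ ClsG D ∧ Q (PD D)}.ncard = ((SS X).filter Q).card := by
  have h1 : {D : ZI | nrm D ≤ X ∧ ClsG D ∧ Q (PD D)} =
      (fun S : Finset ZI => ∏ π ∈ S, π) '' (((SS X).filter Q : Finset (Finset ZI)) :
        Set (Finset ZI)) := by
    ext D
    constructor
    · rintro ⟨h4, h2, h3⟩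
      have hD : PS D := h2.1
      refine ⟨PD D, ?_, hD.prod⟩
      rw [Finset.mem_coe, Finset.mem_filter]
      refine ⟨?_, h3⟩
      unfold SS
      rw [Finset.mem_filter, Finset.mem_powerset]
      refine ⟨fun π hπ => ?_, (cls_iff hD).1 h2, ?_⟩
      · obtain ⟨h5, h6⟩ := (mem_PD hD.ne).1 hπ
        exact mem_QB.2 ⟨(norm_le_of_dvd hD.ne h6).trans h4, h5⟩
      · rw [← nrm_prod, hD.prod]
        exact h4
    · rintro ⟨S, hS, rfl⟩
      rw [Finset.mem_coe, Finset.mem_filter] at hS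
      obtain ⟨h1, h2⟩ := hS
      unfold SS at h1
      rw [Finset.mem_filter] at h1
      obtain ⟨-, h3, h4⟩ := h1
      obtain ⟨h5, h6⟩ := PS_prod h3.1
      refine ⟨?_, (cls_iff h5).2 (by rw [h6]; exact h3), by rw [h6]; exact h2⟩
      rw [nrm_prod]
      exact h4
  rw [h1, Set.ncard_image_of_injOn, Set.ncard_coe_finset]
  intro S hS S' hS' h
  rw [Finset.mem_coe, Finset.mem_filter] at hS hS'
  have e1 : ∀ π ∈ S, PP π := by
    have := hS.1
    unfold SS at this
    exact (Finset.mem_filter.1 this).2.1.1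
  have e2 : ∀ π ∈ S', PP π := by
    have := hS'.1
    unfold SS at this
    exact (Finset.mem_filter.1 this).2.1.1
  rw [← (PS_prod e1).2, ← (PS_prod e2).2]
  exact congrArg PD h

theorem card_cls (X : ℕ) : {D : ZI | nrm D ≤ X ∧ ClsG D}.ncard = (SS X).card := by
  have h := card_eq X (fun _ => True)
  rw [Finset.filter_true] at h
  rw [← h]
  congr 1
  ext D
  simp only [Set.mem_ofPred_eq, and_true]

theorem t_NS : S_NS := by
  intro h
  unfold S_DQ at h
  unfold S_DEN
  refine h.congr fun X => ?_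
  rw [card_cls, card_eq X Gd]

end Pool.Agent.L7h77.GX
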