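import Pool.Agent.L7h3.GX.Stm
import Pool.Agent.Y699.Box

/-!
# GX-BIL: bilinear sums of quadratic symbols over the Gaussian integers
(after `Pool/Agent/Y363/XK/Bil.lean`)
-/

set_option autoImplicit false
set_option linter.all false

open Finset

namespace Pool.Agent.L7h77.GX

open Pool.Agent.L7h3.GX
open H385 (ZI nrm)
open Pool.Agent.Y699 hiding sg
open Pool.Agent.Y703.CQ (sg)
open scoped ComplexConjugate

open Classical in
/-- real coefficients -/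
theorem bil_core : ∃ C : ℝ, 1 ≤ C ∧ ∀ (P Q : Finset ZI) (A B z : ℕ) (c d : ZI → ℝ),
    (∀ π ∈ P, PP π ∧ nrm π ≤ A) → (∀ ρ ∈ Q, PP ρ ∧ nrm ρ ≤ B) → Disjoint P Q →
    1 ≤ z → z ≤ A → z ≤ B → (∀ π, |c π| ≤ 1) → (∀ ρ, |d ρ| ≤ 1) →
    |∑ π ∈ P, ∑ ρ ∈ Q, c π * d ρ * (qr π ρ : ℝ)| ≤
      2 * C * (A * B) * (z : ℝ) ^ (-(1 / 24) : ℝ) := by
  obtain ⟨C, hC1, hC⟩ := box
  refine ⟨C, hC1, ?_⟩
  intro P Q A B z c d hP hQ hdis hz hzA hzB hc hd
  have hps : ∀ π : ZI, PP π → PS π := fun π h => ⟨h.prm, h.pr.irreducible.squarefree⟩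
  have hPA : P ⊆ SB A := fun x hx => mem_SB.2 ⟨(hP x hx).2, hps x (hP x hx).1⟩
  have hQB : Q ⊆ SB B := fun x hx => mem_SB.2 ⟨(hQ x hx).2, hps x (hQ x hx).1⟩
  have h1 := hC (fun x => if x ∈ P then c x else 0) (fun y => if y ∈ Q then d y else 0)
    (fun x => by
      show |if x ∈ P then c x else 0| ≤ 1
      split_ifs
      · exact hc x
      · rw [abs_zero]; exact zero_le_one)
    (fun y => by
      show |if y ∈ Q then d y else 0| ≤ 1
      split_ifs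
      · exact hd y
      · rw [abs_zero]; exact zero_le_one) A B (hz.trans hzA) (hz.trans hzB)
  have e1 : Bil (fun x => if x ∈ P then c x else 0) (fun y => if y ∈ Q then d y else 0) A B =
      ∑ π ∈ P, ∑ ρ ∈ Q, c π * d ρ * (qr π ρ : ℝ) := by
    unfold Bil
    refine (sum_subset hPA fun x _ hx => ?_).symm.trans (sum_congr rfl fun x hx => ?_)
    · refine sum_eq_zero fun y _ => ?_
      show (if x ∈ P then c x else 0) * (if y ∈ Q then d y else 0) * (jac x y : ℝ) = 0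
      rw [if_neg hx, zero_mul, zero_mul]
    · refine (sum_subset hQB fun y _ hy => ?_).symm.trans (sum_congr rfl fun y hy => ?_)
      · show (if x ∈ P then c x else 0) * (if y ∈ Q then d y else 0) * (jac x y : ℝ) = 0
        rw [if_neg hy, mul_zero, zero_mul]
      · show (if x ∈ P then c x else 0) * (if y ∈ Q then d y else 0) * (jac x y : ℝ) = _
        rw [if_pos hx, if_pos hy, jac_prime (hP x hx).1]
  rw [e1] at h1
  have hz0 : (0 : ℝ) < z := by exact_mod_cast hz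
  have hzA' : (z : ℝ) ≤ A := by exact_mod_cast hzA
  have hzB' : (z : ℝ) ≤ B := by exact_mod_cast hzB
  have hA0 : (0 : ℝ) < A := lt_of_lt_of_le hz0 hzA'
  have hB0 : (0 : ℝ) < B := lt_of_lt_of_le hz0 hzB'
  have h2 : (A : ℝ) ^ (-(1 / 24) : ℝ) ≤ (z : ℝ) ^ (-(1 / 24) : ℝ) :=
    Real.rpow_le_rpow_of_nonpos hz0 hzA' (by norm_num)
  have h3 : (B : ℝ) ^ (-(1 / 24) : ℝ) ≤ (z : ℝ) ^ (-(1 / 24) : ℝ) :=
    Real.rpow_le_rpow_of_nonpos hz0 hzB' (by norm_num)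
  set q : ℝ := (z : ℝ) ^ (-(1 / 24) : ℝ) with hq
  refine h1.trans ?_
  have h5 : (A : ℝ) * B * ((A : ℝ) ^ (-(1 / 24) : ℝ) + (B : ℝ) ^ (-(1 / 24) : ℝ)) ≤
      A * B * (q + q) := by
    apply mul_le_mul_of_nonneg_left (add_le_add h2 h3) (by positivity)
  have h6 := mul_le_mul_of_nonneg_left h5 (by linarith : (0 : ℝ) ≤ C)
  refine h6.trans (le_of_eq ?_)
  ring

/-- the sign is the symbol at different primes -/
theorem sg_ep {π ρ : ZI} (h1 : PP π) (h2 : PP ρ) (h : π ≠ ρ) : sg (ep π ρ) = ((qr π ρ : ℤ) : ℂ) := by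
  have h0 : ¬ π ∣ ρ := fun h' => h (h1.eq_of_dvd h2 h')
  unfold ep sg
  have hq : qr π ρ = 1 ∨ qr π ρ = -1 := by
    unfold qr
    rw [if_neg h0]
    split_ifs
    · exact Or.inl rfl
    · exact Or.inr rfl
  rcases hq with h | h
  · rw [h]; simp
  · rw [h]; simp

theorem t_BIL : S_BIL := by
  obtain ⟨C, hC1, hC⟩ := bil_core
  refine ⟨(8 * C) ^ 24, one_le_pow₀ (by linarith), ?_⟩
  intro P Q A B z c d hP hQ hdis hz hzA hzB hc hd
  have hz0 : (0 : ℝ) < z := by exact_mod_cast hz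
  set q : ℝ := (z : ℝ) ^ (-(1 / 24) : ℝ) with hq
  have hq24 : q ^ 24 * z = 1 := by
    rw [hq, ← Real.rpow_natCast, ← Real.rpow_mul hz0.le]
    norm_num
    rw [Real.rpow_neg_one]
    exact inv_mul_cancel₀ hz0.ne'
  have hcr : ∀ x, |(c x).re| ≤ 1 := fun x => (Complex.abs_re_le_norm _).trans (hc x)
  have hci : ∀ x, |(c x).im| ≤ 1 := fun x => (Complex.abs_im_le_norm _).trans (hc x)
  have hdr : ∀ x, |(d x).re| ≤ 1 := fun x => (Complex.abs_re_le_norm _).trans (hd x)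
  have hdi : ∀ x, |(d x).im| ≤ 1 := fun x => (Complex.abs_im_le_norm _).trans (hd x)
  have a1 := hC P Q A B z (fun x => (c x).re) (fun x => (d x).re) hP hQ hdis hz hzA hzB hcr hdr
  have a2 := hC P Q A B z (fun x => (c x).re) (fun x => (d x).im) hP hQ hdis hz hzA hzB hcr hdi
  have a3 := hC P Q A B z (fun x => (c x).im) (fun x => (d x).re) hP hQ hdis hz hzA hzB hci hdr
  have a4 := hC P Q A B z (fun x => (c x).im) (fun x => (d x).im) hP hQ hdis hz hzA hzB hci hdi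
  rw [← hq] at a1 a2 a3 a4
  set s1 : ℝ := ∑ π ∈ P, ∑ ρ ∈ Q, (c π).re * (d ρ).re * (qr π ρ : ℝ) with hs1
  set s2 : ℝ := ∑ π ∈ P, ∑ ρ ∈ Q, (c π).re * (d ρ).im * (qr π ρ : ℝ) with hs2
  set s3 : ℝ := ∑ π ∈ P, ∑ ρ ∈ Q, (c π).im * (d ρ).re * (qr π ρ : ℝ) with hs3
  set s4 : ℝ := ∑ π ∈ P, ∑ ρ ∈ Q, (c π).im * (d ρ).im * (qr π ρ : ℝ) with hs4
  have e : ∑ π ∈ P, ∑ ρ ∈ Q, c π * d ρ * sg (ep π ρ) =
      ((s1 - s4 : ℝ) : ℂ) + ((s2 + s3 : ℝ) : ℂ) * Complex.I := by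
    rw [hs1, hs2, hs3, hs4]
    push_cast
    rw [← sum_sub_distrib, ← sum_add_distrib, sum_mul, ← sum_add_distrib]
    refine sum_congr rfl fun x hx => ?_
    rw [← sum_sub_distrib, ← sum_add_distrib, sum_mul, ← sum_add_distrib]
    refine sum_congr rfl fun y hy => ?_
    rw [sg_ep (hP x hx).1 (hQ y hy).1 fun h => (Finset.disjoint_left.1 hdis) hx (h ▸ hy)]
    conv_lhs => rw [← Complex.re_add_im (c x), ← Complex.re_add_im (d y)]
    ring_nf
    rw [Complex.I_sq]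
    ring
  have h4 : ‖∑ π ∈ P, ∑ ρ ∈ Q, c π * d ρ * sg (ep π ρ)‖ ≤ 8 * C * (A * B) * q := by
    rw [e]
    refine (norm_add_le _ _).trans ?_
    rw [norm_mul, Complex.norm_I, mul_one, Complex.norm_real, Complex.norm_real,
      Real.norm_eq_abs, Real.norm_eq_abs]
    have b1 := abs_sub s1 s4
    have b2 := abs_add_le s2 s3
    linarith
  have h5 := pow_le_pow_left₀ (norm_nonneg _) h4 24
  calc ‖∑ π ∈ P, ∑ ρ ∈ Q, c π * d ρ * sg (ep π ρ)‖ ^ 24 * z ≤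
      (8 * C * (A * B) * q) ^ 24 * z := mul_le_mul_of_nonneg_right h5 hz0.le
    _ = (8 * C) ^ 24 * ((A : ℝ) * B) ^ 24 * (q ^ 24 * z) := by ring
    _ = (8 * C) ^ 24 * ((A : ℝ) * B) ^ 24 := by rw [hq24, mul_one]

end Pool.Agent.L7h77.GX
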